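import Pool.Agent.Helper97.KWDefs
import Pool.Agent.Helper97.KWProof

open MeasureTheory
open Pool.Agent.Helper97.KW

namespace Pool.Agent.Results.MP_a2bed5_pr.KWConvex

/-- **Convexity of the mean workloads in the GI/GI/k queue.** -/
theorem result (k : ℕ) (hk : 3 ≤ k) (μS μT : Measure ℝ)
    [IsProbabilityMeasure μS] [IsProbabilityMeasure μT]
    (hS0 : ∀ᵐ s ∂μS, 0 ≤ s) (hT0 : ∀ᵐ t ∂μT, 0 ≤ t)
    (hS2 : Integrable (fun s => s ^ 2) μS) (hT2 : Integrable (fun t => t ^ 2) μT)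
    (hρ0 : 0 < (∫ s, s ∂μS) / (k * ∫ t, t ∂μT))
    (hρ1 : (∫ s, s ∂μS) / (k * ∫ t, t ∂μT) < 1)
    (π : Measure (Fin k → ℝ)) (hπ : IsStationary k μS μT π) :
    (∀ j, Integrable (fun w => w j) π) ∧ IsConvexSeq (fun j => ∫ w, w j ∂π) :=
  main k hk μS μT hS0 hT0 hS2 hT2 hρ0 hρ1 π hπ

end Pool.Agent.Results.MP_a2bed5_pr.KWConvex
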